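import Pool.Agent.R852.MC.Fin

set_option autoImplicit false

/-! # The local motivic monodromy conjecture for hypersurfaces which are built with sums of ideals,
# powers and products of powers of forms

Let `ML` be the least class of germs of ideals at the origin, together with their local motivic zeta
functions, with the following properties:

* it contains the unit ideal, the powers `(x ^ m)`, the non-zero ideals of `ℂ[x, y]`, the ideals of
  `ℂ[x₀, x₁, x₂]` generated by forms of the same degree, three of which are algebraically independent,
  the ideals generated by forms of the same degree without a common zero outside the origin, and it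
  is closed under sums and products in disjoint sets of variables (`Germ`);
* if the ideal `h ∏_t (f_{t, j})_j ^ a_t` is in the class, where `h` and the `f_{t, j}` are any polynomials
  in the same variables `x`, then the principal ideal of
  `h(x) ∏_t (∑_j y_{t, j} f_{t, j}(x)) ^ a_t` is in the class, with further variables `y_{t, j}`;
* if the principal ideal `(g)` is in the class, then `(g ^ k)` is in the class.

The theorem is about the polynomials `F` whose principal ideals are in the class. For example, let
`I = (F_1(x) ^ k_1, …, F_r(x^{(r)}) ^ k_r, …)` be a sum of ideals in disjoint sets of variables, where the `F_i`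
are products of powers of generic members of linear systems on the plane, times a fixed
polynomial, or plane curves; then `F = ∑_j y_j f_j`, `(f_j)` the generators of `I`, is such a polynomial,
and the products of powers of such polynomials, and so on.

The proof (`Pool/Agent/R852/MC`): the properties of an ideal `I` of the class are that every number
`-n/a` which belongs to a denominator `1 - L⁻ⁿ Tᵃ` of the series of the volumes of `ord I ≥ e` is a forced
root, that is a root which comes from all the functional equations of `I` (with a polynomial `B(x, s)` in place of `b(s)`).
For `F = h ∏_t (∑_j y_{t, j} f_{t, j}) ^ a_t` a functional equation with `b` gives one of the ideal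
`h ∏_t (f_{t, j})_j ^ a_t` with `b'`, `b(s) = b'(s) ∏_t ∏_{1 ≤ i ≤ a_t} (a_t s + i)` (`locEq_strong`); a
functional equation of `g ^ k` with `b(s)` gives one of `g` with `b(s / k)` (`loc_shift`), and
`Z_{g ^ k}(T) = Z_g(T ^ k)` (`tail_expand`).
-/

namespace Pool.Agent.Results.MP_9321be_ag.SumsPowersForms

open MvPolynomial Pool.Agent.W574.MO Pool.Agent.H628R4.TP Pool.Agent.R852.MC

/-- **The motivic monodromy conjecture at the origin, in the strong form, for the hypersurfaces of
the class `ML`.** Let `F` be a polynomial in `n` variables whose principal ideal is in the class `ML`
which is described above, and let `Z` be its local motivic zeta function at the origin, normalized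
such that the arcs with the origin `0` have the volume `1`; so `Z_{mot,0,F} = L⁻ⁿ Z`. Let
`b(s) F ^ s = P(s) F ^ (s + 1)`, where `P(s)` is a differential operator with formal power series
coefficients at the origin, for example let `b` be the local Bernstein-Sato polynomial of `F`. Then
`L⁻ⁿ Z` lies in the ring `M[T][(1 - L⁻ⁿ Tᵃ)⁻¹]`, where the pairs `a, n ≥ 1` are such that `-n/a` is a
root of `b` (`RootPair`). By the theorem of Malgrange and Kashiwara, `exp(-2 π i n/a)` is a monodromy
eigenvalue of `F` at points of `{F = 0}` in every neighbourhood of the origin. -/
theorem result {M : Type} [CommRing M] (L : Mˣ) {σ : Type} (F : MvPolynomial σ ℂ)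
    (Z : PowerSeries M) (h : ML L ⟨σ, Fin 1, fun _ => F⟩ Z) (b : Polynomial ℂ)
    (hb : IsLocalBFunction F b) :
    PowerSeries.C ((L⁻¹ ^ Nat.card σ : Mˣ) : M) * Z ∈ DenRing L (RootPair b) :=
  ml_hyp F Z h b hb _

end Pool.Agent.Results.MP_9321be_ag.SumsPowersForms
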